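import Mathlib

set_option autoImplicit false

/-!
# Every upper quasi-density on the positive integers has exactly one extension to `ℕ`

An upper quasi-density is subadditive, normalised, bounded by one and satisfies
`μ(k X + h) = μ(X) / k` for all `h, k ≥ 1`; it need not be monotone.  The extension of `μ` is
`ν(X) = μ(X + 1)`.
-/

namespace Pool.Agent.Results.MP_32b555_nt.UniqueExtension

/-- `μ` is an upper quasi-density on `ℕ^+`. -/
def IsUpperQuasiDensityPos (μ : Set ℕ+ → ℝ) : Prop :=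
  μ Set.univ = 1 ∧
  (∀ X Y : Set ℕ+, μ (X ∪ Y) ≤ μ X + μ Y) ∧
  (∀ (X : Set ℕ+) (h k : ℕ+), μ ((fun x : ℕ+ => k * x + h) '' X) = 1 / (k : ℝ) * μ X) ∧
  (∀ X : Set ℕ+, μ X ≤ 1)

/-- `ν` is an upper quasi-density on `ℕ = {0, 1, 2, …}`. -/
def IsUpperQuasiDensityNat (ν : Set ℕ → ℝ) : Prop :=
  ν Set.univ = 1 ∧
  (∀ X Y : Set ℕ, ν (X ∪ Y) ≤ ν X + ν Y) ∧
  (∀ (X : Set ℕ) (h k : ℕ), 0 < h → 0 < k →
    ν ((fun x : ℕ => k * x + h) '' X) = 1 / (k : ℝ) * ν X) ∧
  (∀ X : Set ℕ, ν X ≤ 1)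

/-- `ν` agrees with `μ` on the subsets of `ℕ^+`. -/
def Extends (ν : Set ℕ → ℝ) (μ : Set ℕ+ → ℝ) : Prop :=
  ∀ X : Set ℕ+, ν ((fun x : ℕ+ => (x : ℕ)) '' X) = μ X

theorem shift {μ : Set ℕ+ → ℝ} (hμ : IsUpperQuasiDensityPos μ) (X : Set ℕ+) (h : ℕ+) :
    μ ((fun x : ℕ+ => x + h) '' X) = μ X := by
  have := hμ.2.2.1 X h 1
  simpa using this

/-- **Main theorem.** Every upper quasi-density on `ℕ^+` has exactly one extension to an upper
quasi-density on `ℕ`. -/
theorem result (μ : Set ℕ+ → ℝ) (hμ : IsUpperQuasiDensityPos μ) :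
    ∃! ν : Set ℕ → ℝ, IsUpperQuasiDensityNat ν ∧ Extends ν μ := by
  refine ⟨fun X => μ (Nat.succPNat '' X), ⟨⟨?_, ?_, ?_, ?_⟩, ?_⟩, ?_⟩
  · have : Nat.succPNat '' (Set.univ : Set ℕ) = Set.univ := by
      rw [Set.image_univ, Set.range_eq_univ]
      intro n
      exact ⟨n.natPred, PNat.succPNat_natPred n⟩
    simp only [this]
    exact hμ.1
  · intro X Y
    simp only [Set.image_union]
    exact hμ.2.1 _ _
  · intro X h k hh hk
    obtain ⟨k', rfl⟩ : ∃ k' : ℕ+, (k' : ℕ) = k := ⟨⟨k, hk⟩, rfl⟩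
    have e1 : (fun x : ℕ+ => x + k') '' (Nat.succPNat '' ((fun x : ℕ => (k' : ℕ) * x + h) '' X)) =
        (fun x : ℕ+ => k' * x + Nat.succPNat h) '' (Nat.succPNat '' X) := by
      simp only [Set.image_image]
      apply Set.image_congr
      intro x _
      apply PNat.eq
      simp only [PNat.add_coe, PNat.mul_coe, Nat.succPNat_coe, Nat.succ_eq_add_one]
      ring
    have h1 := shift hμ (Nat.succPNat '' ((fun x : ℕ => (k' : ℕ) * x + h) '' X)) k'
    rw [e1, hμ.2.2.1] at h1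
    exact h1.symm
  · intro X
    exact hμ.2.2.2 _
  · intro X
    have e : Nat.succPNat '' ((fun x : ℕ+ => (x : ℕ)) '' X) = (fun x : ℕ+ => x + 1) '' X := by
      rw [Set.image_image]
      apply Set.image_congr
      intro x _
      apply PNat.eq
      simp
    change μ (Nat.succPNat '' ((fun x : ℕ+ => (x : ℕ)) '' X)) = μ X
    rw [e, shift hμ]
  · rintro ν ⟨hν, hext⟩
    funext X
    have h1 := hν.2.2.1 X 1 1 one_pos one_pos
    have h2 := hext (Nat.succPNat '' X)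
    have e : (fun x : ℕ+ => (x : ℕ)) '' (Nat.succPNat '' X) = (fun x : ℕ => 1 * x + 1) '' X := by
      rw [Set.image_image]
      apply Set.image_congr
      intro x _
      simp
    rw [e, h1] at h2
    simpa using h2

end Pool.Agent.Results.MP_32b555_nt.UniqueExtension
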